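import Mathlib

set_option autoImplicit false
open MeasureTheory ProbabilityTheory
open scoped ENNReal

namespace Pool.Agent.H56.JS

/-- fair coin on `Bool` -/
noncomputable def coin : Measure Bool :=
  (1 / 2 : ℝ≥0∞) • Measure.dirac true + (1 / 2 : ℝ≥0∞) • Measure.dirac false

instance : IsProbabilityMeasure coin := by
  constructor
  simp [coin, ENNReal.inv_two_add_inv_two]

/-- sign of a Boolean -/
def sg (b : Bool) : ℝ := if b then 1 else -1

lemma sg_sq (b : Bool) : sg b ^ 2 = 1 := by cases b <;> simp [sg]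

lemma measurable_sg : Measurable sg := measurable_from_top

lemma integral_sg : ∫ b, sg b ∂coin = 0 := by
  have h : Integrable sg coin := by
    apply Integrable.of_bound (C := 1) measurable_sg.aestronglyMeasurable
    filter_upwards with b
    cases b <;> simp [sg]
  unfold coin at *
  rw [integral_add_measure, integral_smul_measure, integral_smul_measure, integral_dirac,
    integral_dirac]
  · simp [sg]
  · exact (h.mono_measure (by exact Measure.le_add_right le_rfl))
  · exact (h.mono_measure (by exact Measure.le_add_left le_rfl))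

variable (ι : Type)

/-- the sign space -/
abbrev Sg := ι → Bool

/-- product of fair coins -/
noncomputable def PP : Measure (ι → Bool) := Measure.infinitePi (fun _ : ι => coin)

instance : IsProbabilityMeasure (PP ι) := by unfold PP; infer_instance

variable {ι}

/-- Rademacher functions -/
def rad (i : ι) (ω : ι → Bool) : ℝ := sg (ω i)

lemma rad_sq (i : ι) (ω : ι → Bool) : rad i ω ^ 2 = 1 := sg_sq _

lemma abs_rad (i : ι) (ω : ι → Bool) : |rad i ω| = 1 := by
  unfold rad sg
  cases ω i <;> simp

lemma measurable_rad (i : ι) : Measurable (rad i) :=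
  measurable_sg.comp (measurable_pi_apply i)

lemma integral_rad (i : ι) : ∫ ω, rad i ω ∂(PP ι) = 0 := by
  have h : Measure.map (fun ω : ι → Bool => ω i) (PP ι) = coin :=
    Measure.infinitePi_map_eval _ i
  have : ∫ ω, rad i ω ∂(PP ι) = ∫ b, sg b ∂(Measure.map (fun ω : ι → Bool => ω i) (PP ι)) := by
    rw [integral_map (measurable_pi_apply i).aemeasurable measurable_sg.aestronglyMeasurable]
    rfl
  rw [this, h, integral_sg]

lemma iIndep_rad (s : ι → ℝ) : iIndepFun (fun i ω => s i * rad i ω) (PP ι) :=
  iIndepFun_infinitePi (P := fun _ : ι => coin) (X := fun i b => s i * sg b)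
    (fun _ => measurable_sg.const_mul _)

/-- finite Rademacher sums -/
noncomputable def rs (F : Finset ι) (s : ι → ℝ) (ω : ι → Bool) : ℝ := ∑ i ∈ F, s i * rad i ω

lemma measurable_rs (F : Finset ι) (s : ι → ℝ) : Measurable (rs F s) := by
  unfold rs
  exact Finset.measurable_sum _ (fun i _ => (measurable_rad i).const_mul _)

lemma abs_rs_le (F : Finset ι) (s : ι → ℝ) (ω : ι → Bool) : |rs F s ω| ≤ ∑ i ∈ F, |s i| := by
  unfold rs
  refine (Finset.abs_sum_le_sum_abs _ _).trans (le_of_eq ?_)
  refine Finset.sum_congr rfl (fun i _ => ?_)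
  rw [abs_mul, abs_rad, mul_one]

lemma integrable_rs_pow (F : Finset ι) (s : ι → ℝ) (n : ℕ) :
    Integrable (fun ω => rs F s ω ^ n) (PP ι) := by
  apply Integrable.of_bound (C := (∑ i ∈ F, |s i|) ^ n)
    ((measurable_rs F s).pow_const n).aestronglyMeasurable
  filter_upwards with ω
  rw [Real.norm_eq_abs, abs_pow]
  exact pow_le_pow_left₀ (abs_nonneg _) (abs_rs_le F s ω) n

lemma integrable_rs_pow_mul_rad (F : Finset ι) (s : ι → ℝ) (n : ℕ) (i : ι) :
    Integrable (fun ω => rs F s ω ^ n * rad i ω) (PP ι) := by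
  apply Integrable.of_bound (C := (∑ i ∈ F, |s i|) ^ n)
    (((measurable_rs F s).pow_const n).mul (measurable_rad i)).aestronglyMeasurable
  filter_upwards with ω
  show |rs F s ω ^ n * rad i ω| ≤ _
  rw [abs_mul, abs_pow, abs_rad, mul_one]
  exact pow_le_pow_left₀ (abs_nonneg _) (abs_rs_le F s ω) n

lemma integral_rs_pow_mul_rad [DecidableEq ι] (F : Finset ι) (s : ι → ℝ) (n : ℕ) (i : ι)
    (hi : i ∉ F) :
    ∫ ω, rs F s ω ^ n * rad i ω ∂(PP ι) = 0 := by
  -- replace s i by 1
  set s' : ι → ℝ := fun j => if j = i then 1 else s j with hs'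
  have hrs : rs F s = rs F s' := by
    funext ω
    unfold rs
    refine Finset.sum_congr rfl (fun j hj => ?_)
    have : j ≠ i := fun h => hi (h ▸ hj)
    simp [hs', this]
  have hind := (iIndep_rad s').indepFun_finsetSum_of_notMem
    (fun j => (measurable_rad j).const_mul _) hi
  have h1 : IndepFun (rs F s') (rad i) (PP ι) := by
    have e1 : (∑ j ∈ F, fun ω : ι → Bool => s' j * rad j ω) = rs F s' := by
      funext ω
      simp [rs]
    have e2 : (fun ω : ι → Bool => s' i * rad i ω) = rad i := by
      funext ω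
      simp [hs']
    rw [e1, e2] at hind
    exact hind
  have h2 : IndepFun (fun ω => rs F s' ω ^ n) (rad i) (PP ι) :=
    h1.comp (φ := fun x : ℝ => x ^ n) (ψ := id) (measurable_id.pow_const n) measurable_id
  rw [hrs, h2.integral_fun_mul_eq_mul_integral
    ((measurable_rs F s').pow_const n).aestronglyMeasurable
    (measurable_rad i).aestronglyMeasurable, integral_rad, mul_zero]

lemma rs_insert [DecidableEq ι] {F : Finset ι} {i : ι} (hi : i ∉ F) (s : ι → ℝ) (ω : ι → Bool) :
    rs (insert i F) s ω = rs F s ω + s i * rad i ω := by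
  unfold rs
  rw [Finset.sum_insert hi, add_comm]

lemma integral_rs_sq [DecidableEq ι] (F : Finset ι) (s : ι → ℝ) :
    ∫ ω, rs F s ω ^ 2 ∂(PP ι) = ∑ i ∈ F, s i ^ 2 := by
  induction F using Finset.induction_on with
  | empty => simp [rs]
  | insert i F hi ih =>
    have e : (fun ω => rs (insert i F) s ω ^ 2) =
        fun ω => rs F s ω ^ 2 + (2 * s i) * (rs F s ω ^ 1 * rad i ω) + s i ^ 2 := by
      funext ω
      rw [rs_insert hi]
      have := rad_sq i ω
      linear_combination (s i ^ 2) * this
    rw [e, integral_add, integral_add, ih, integral_const_mul,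
      integral_rs_pow_mul_rad F s 1 i hi, Finset.sum_insert hi]
    · simp
      ring
    · exact integrable_rs_pow F s 2
    · exact (integrable_rs_pow_mul_rad F s 1 i).const_mul _
    · exact (integrable_rs_pow F s 2).add ((integrable_rs_pow_mul_rad F s 1 i).const_mul _)
    · exact integrable_const _

lemma integral_rs_four [DecidableEq ι] (F : Finset ι) (s : ι → ℝ) :
    ∫ ω, rs F s ω ^ 4 ∂(PP ι) ≤ 3 * (∑ i ∈ F, s i ^ 2) ^ 2 := by
  induction F using Finset.induction_on with
  | empty => simp [rs]
  | insert i F hi ih =>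
    have e : (fun ω => rs (insert i F) s ω ^ 4) =
        fun ω => rs F s ω ^ 4 + (4 * s i) * (rs F s ω ^ 3 * rad i ω) +
          (6 * s i ^ 2) * rs F s ω ^ 2 + (4 * s i ^ 3) * (rs F s ω ^ 1 * rad i ω) + s i ^ 4 := by
      funext ω
      rw [rs_insert hi]
      have := rad_sq i ω
      linear_combination (6 * s i ^ 2 * rs F s ω ^ 2 + 4 * s i ^ 3 * rs F s ω * rad i ω
        + s i ^ 4 * (rad i ω ^ 2 + 1)) * this
    have i1 := integrable_rs_pow F s 4
    have i2 := (integrable_rs_pow_mul_rad F s 3 i).const_mul (4 * s i)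
    have i3 := (integrable_rs_pow F s 2).const_mul (6 * s i ^ 2)
    have i4 := (integrable_rs_pow_mul_rad F s 1 i).const_mul (4 * s i ^ 3)
    have i12 : Integrable (fun ω => rs F s ω ^ 4 + (4 * s i) * (rs F s ω ^ 3 * rad i ω)) (PP ι) :=
      i1.add i2
    have i123 : Integrable (fun ω => rs F s ω ^ 4 + (4 * s i) * (rs F s ω ^ 3 * rad i ω) +
        (6 * s i ^ 2) * rs F s ω ^ 2) (PP ι) := i12.add i3
    have i1234 : Integrable (fun ω => rs F s ω ^ 4 + (4 * s i) * (rs F s ω ^ 3 * rad i ω) +
        (6 * s i ^ 2) * rs F s ω ^ 2 + (4 * s i ^ 3) * (rs F s ω ^ 1 * rad i ω)) (PP ι) :=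
      i123.add i4
    rw [e, integral_add i1234 (integrable_const _), integral_add i123 i4, integral_add i12 i3,
      integral_add i1 i2, integral_const_mul, integral_const_mul, integral_const_mul,
      integral_rs_pow_mul_rad F s 1 i hi, integral_rs_pow_mul_rad F s 3 i hi, integral_rs_sq,
      Finset.sum_insert hi]
    simp only [mul_zero, add_zero, integral_const, probReal_univ, one_smul]
    nlinarith [ih, sq_nonneg (s i ^ 2)]

end Pool.Agent.H56.JS
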