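import Mathlib
import Pool.Agent.H56.JS.Pull

set_option autoImplicit false
open MeasureTheory Filter Topology
open scoped ENNReal

namespace Pool.Agent.H56.JS

/-! ### norms as integrals -/

section norms
variable {Ω : Type} [MeasurableSpace Ω] {m : Measure Ω}

lemma norm4_eq (f : Lp ℝ 4 m) : ‖f‖ ^ 4 = ∫ x, (f x) ^ 4 ∂m := by
  rw [Lp.norm_def, toReal_eLpNorm (Lp.aestronglyMeasurable f),
    lpNorm_eq_integral_norm_rpow_toReal (by norm_num) (by norm_num) (Lp.aestronglyMeasurable f)]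
  have e : ((4 : ℝ≥0∞).toReal) = ((4 : ℕ) : ℝ) := by norm_num
  rw [e]
  simp_rw [Real.rpow_natCast]
  have h0 : 0 ≤ ∫ x, ‖f x‖ ^ 4 ∂m := integral_nonneg (fun x => by positivity)
  rw [← Real.rpow_natCast, ← Real.rpow_mul h0]
  norm_num
  refine integral_congr_ae (Eventually.of_forall fun x => ?_)
  exact (Even.pow_abs (by decide) (f x))

lemma norm2_eq (f : Lp ℝ 2 m) : ‖f‖ ^ 2 = ∫ x, (f x) ^ 2 ∂m := by
  rw [Lp.norm_def, toReal_eLpNorm (Lp.aestronglyMeasurable f),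
    lpNorm_eq_integral_norm_rpow_toReal (by norm_num) (by norm_num) (Lp.aestronglyMeasurable f)]
  have e : ((2 : ℝ≥0∞).toReal) = ((2 : ℕ) : ℝ) := by norm_num
  rw [e]
  simp_rw [Real.rpow_natCast]
  have h0 : 0 ≤ ∫ x, ‖f x‖ ^ 2 ∂m := integral_nonneg (fun x => by positivity)
  rw [← Real.rpow_natCast, ← Real.rpow_mul h0]
  norm_num

lemma integrable_pow4 (f : Lp ℝ 4 m) : Integrable (fun x => (f x) ^ 4) m := by
  have h := (Lp.memLp f).integrable_norm_rpow (by norm_num) (by norm_num)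
  refine h.congr (Eventually.of_forall fun x => ?_)
  have e : ((4 : ℝ≥0∞).toReal) = ((4 : ℕ) : ℝ) := by norm_num
  simp only [e, Real.rpow_natCast]
  exact (Even.pow_abs (by decide) (f x))

lemma integrable_pow2 (f : Lp ℝ 2 m) : Integrable (fun x => (f x) ^ 2) m :=
  (Lp.memLp f).integrable_sq

end norms

/-! ### choice of signs in a Hilbert space -/

lemma exists_sign {H : Type*} [NormedAddCommGroup H] [InnerProductSpace ℝ H] (S g : H) :
    ∃ e : ℝ, (e = 1 ∨ e = -1) ∧ ‖S‖ ^ 2 + ‖g‖ ^ 2 ≤ ‖S + e • g‖ ^ 2 := by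
  rcases le_total 0 (inner ℝ S g) with h | h
  · refine ⟨1, Or.inl rfl, ?_⟩
    rw [one_smul, norm_add_sq_real]
    linarith
  · refine ⟨-1, Or.inr rfl, ?_⟩
    rw [neg_smul, one_smul, ← sub_eq_add_neg, norm_sub_sq_real]
    linarith

lemma exists_signs {H : Type*} [NormedAddCommGroup H] [InnerProductSpace ℝ H] {ι : Type*}
    (F : Finset ι) (g : ι → H) :
    ∃ e : ι → ℝ, (∀ i, e i = 1 ∨ e i = -1) ∧ ∑ i ∈ F, ‖g i‖ ^ 2 ≤ ‖∑ i ∈ F, e i • g i‖ ^ 2 := by
  classical
  induction F using Finset.induction_on with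
  | empty => exact ⟨fun _ => 1, fun _ => Or.inl rfl, by simp⟩
  | insert i F hi ih =>
    obtain ⟨e, he, hS⟩ := ih
    obtain ⟨t, ht, h⟩ := exists_sign (∑ i ∈ F, e i • g i) (g i)
    refine ⟨Function.update e i t, fun j => ?_, ?_⟩
    · by_cases hj : j = i
      · subst hj; simpa using ht
      · simpa [Function.update_of_ne hj] using he j
    · rw [Finset.sum_insert hi, Finset.sum_insert hi]
      have : ∑ x ∈ F, Function.update e i t x • g x = ∑ x ∈ F, e x • g x := by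
        refine Finset.sum_congr rfl (fun x hx => ?_)
        rw [Function.update_of_ne (show x ≠ i from fun h => hi (h ▸ hx))]
      rw [this, Function.update_self, add_comm (t • g i)]
      linarith

/-! ### the key step in `L^4` of a finite measure -/

section step
variable {Ω : Type} [MeasurableSpace Ω] {ν : Measure Ω} [IsFiniteMeasure ν]

/-- the inclusion `L^4(ν) → L^2(ν)` -/
noncomputable def incl (ν : Measure Ω) [IsFiniteMeasure ν] : Lp ℝ 4 ν →L[ℝ] Lp ℝ 2 ν :=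
  pull (m := ν) (P := ν) (j := id) measurable_id (le_of_eq Measure.map_id)

lemma incl_ae (f : Lp ℝ 4 ν) : incl ν f =ᵐ[ν] f := pull_apply_ae _ _ f

lemma norm_incl_le (f : Lp ℝ 4 ν) : ‖incl ν f‖ ≤ cst ν * ‖f‖ := norm_pull_le _ _ f

lemma norm_incl_sq (f : Lp ℝ 4 ν) : ‖incl ν f‖ ^ 2 = ∫ x, (f x) ^ 2 ∂ν := by
  rw [norm2_eq]
  refine integral_congr_ae ?_
  filter_upwards [incl_ae f] with x hx
  rw [hx]

lemma integrable_sq4 (f : Lp ℝ 4 ν) : Integrable (fun x => (f x) ^ 2) ν := by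
  refine (integrable_pow2 (incl ν f)).congr ?_
  filter_upwards [incl_ae f] with x hx
  rw [hx]

lemma step (g h : Lp ℝ 4 ν) (B : ℝ) (hB : ∀ᵐ x ∂ν, |g x| ≤ B) :
    ∃ e : ℝ, (e = 1 ∨ e = -1) ∧
      ‖g + e • h‖ ^ 4 ≤ ‖g‖ ^ 4 + ‖h‖ ^ 4 + 6 * B ^ 2 * ‖incl ν h‖ ^ 2 := by
  have key : ‖g + (1 : ℝ) • h‖ ^ 4 + ‖g + (-1 : ℝ) • h‖ ^ 4 ≤
      2 * (‖g‖ ^ 4 + ‖h‖ ^ 4 + 6 * B ^ 2 * ‖incl ν h‖ ^ 2) := by
    rw [norm4_eq, norm4_eq, norm4_eq, norm4_eq, norm_incl_sq]
    have i1 := integrable_pow4 (g + (1 : ℝ) • h)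
    have i2 := integrable_pow4 (g + (-1 : ℝ) • h)
    have i3 := integrable_pow4 g
    have i4 := integrable_pow4 h
    have i5 := integrable_sq4 h
    have i34 : Integrable (fun x => (g x) ^ 4 + (h x) ^ 4) ν := i3.add i4
    have i6 : Integrable (fun x => (6 * B ^ 2) * (h x) ^ 2) ν := i5.const_mul _
    have i345 : Integrable (fun x => (g x) ^ 4 + (h x) ^ 4 + (6 * B ^ 2) * (h x) ^ 2) ν :=
      i34.add i6
    rw [← integral_add i1 i2, ← integral_const_mul, ← integral_add i3 i4,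
      ← integral_add i34 i6, ← integral_const_mul]
    refine integral_mono_ae (i1.add i2) (i345.const_mul 2) ?_
    filter_upwards [Lp.coeFn_add g ((1 : ℝ) • h), Lp.coeFn_add g ((-1 : ℝ) • h),
      Lp.coeFn_smul (1 : ℝ) h, Lp.coeFn_smul (-1 : ℝ) h, hB] with x h1 h2 h3 h4 h5
    simp only [h1, h2, Pi.add_apply, h3, h4, Pi.smul_apply, smul_eq_mul]
    have h6 : (g x) ^ 2 ≤ B ^ 2 := by
      rw [← sq_abs]
      exact pow_le_pow_left₀ (abs_nonneg _) h5 2
    have h7 : (g x) ^ 2 * (h x) ^ 2 ≤ B ^ 2 * (h x) ^ 2 :=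
      mul_le_mul_of_nonneg_right h6 (sq_nonneg _)
    nlinarith [h7]
  by_contra hcon
  push Not at hcon
  have a1 := hcon 1 (Or.inl rfl)
  have a2 := hcon (-1) (Or.inr rfl)
  linarith

omit [IsFiniteMeasure ν] in
/-- bounded approximation -/
lemma exists_bdd_approx (f : Lp ℝ 4 ν) {δ : ℝ} (hδ : 0 < δ) :
    ∃ (h : Lp ℝ 4 ν) (B : ℝ), (∀ᵐ x ∂ν, |h x| ≤ B) ∧ ‖f - h‖ ≤ δ := by
  obtain ⟨g, hg, hg4⟩ := (Lp.memLp f).exists_simpleFunc_eLpNorm_sub_lt (by norm_num)
    (ε := ENNReal.ofReal δ) (by simpa using hδ)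
  refine ⟨hg4.toLp, ?_⟩
  obtain ⟨B, hB⟩ := g.exists_forall_norm_le
  refine ⟨B, ?_, ?_⟩
  · filter_upwards [hg4.coeFn_toLp] with x hx
    rw [hx]
    exact hB x
  · rw [Lp.norm_def]
    apply ENNReal.toReal_le_of_le_ofReal hδ.le
    refine le_trans (le_of_eq ?_) hg.le
    apply eLpNorm_congr_ae
    filter_upwards [Lp.coeFn_sub f hg4.toLp, hg4.coeFn_toLp] with x h1 h2
    rw [h1, Pi.sub_apply, Pi.sub_apply, h2]

/-- Kadec-Pelczynski type statement: a bounded sequence in `L^4(ν)` tending to zero in `L^2(ν)`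
cannot satisfy a lower `ℓ^2` estimate for sums with coefficients `±1`. -/
lemma no_lower_two (f : ℕ → Lp ℝ 4 ν) (M c : ℝ) (hM : ∀ n, ‖f n‖ ≤ M) (hc : 0 < c)
    (h0 : Tendsto (fun n => ‖incl ν (f n)‖) atTop (𝓝 0))
    (hlow : ∀ (F : Finset ℕ) (e : ℕ → ℝ), (∀ i, e i = 1 ∨ e i = -1) →
      c * Real.sqrt F.card ≤ ‖∑ i ∈ F, e i • f i‖) : False := by
  classical
  have hap : ∀ n : ℕ, ∃ (h : Lp ℝ 4 ν) (B : ℝ), (∀ᵐ x ∂ν, |h x| ≤ B) ∧ ‖f n - h‖ ≤ (1 / 2) ^ n :=
    fun n => exists_bdd_approx (f n) (by positivity)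
  choose h B hB hfh using hap
  have hhM : ∀ n, ‖h n‖ ≤ M + 1 := by
    intro n
    have h1 : ‖h n‖ ≤ ‖f n‖ + ‖f n - h n‖ := by
      have : h n = f n - (f n - h n) := by abel
      calc ‖h n‖ = ‖f n - (f n - h n)‖ := by rw [← this]
        _ ≤ _ := norm_sub_le _ _
    have h2 : ((1 : ℝ) / 2) ^ n ≤ 1 := pow_le_one₀ (by norm_num) (by norm_num)
    linarith [hM n, hfh n]
  have hh0 : Tendsto (fun n => ‖incl ν (h n)‖) atTop (𝓝 0) := by
    have hz : Tendsto (fun n : ℕ => ‖incl ν (f n)‖ + cst ν * (1 / 2) ^ n) atTop (𝓝 0) := by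
      have := (tendsto_pow_atTop_nhds_zero_of_lt_one (r := (1 / 2 : ℝ)) (by norm_num)
        (by norm_num)).const_mul (cst ν)
      simpa using h0.add this
    refine squeeze_zero (fun n => norm_nonneg _) (fun n => ?_) hz
    have e : incl ν (h n) = incl ν (f n) - incl ν (f n - h n) := by
      rw [← map_sub]; congr 1; abel
    rw [e]
    refine (norm_sub_le _ _).trans (add_le_add le_rfl ?_)
    refine (norm_incl_le _).trans (mul_le_mul_of_nonneg_left (hfh n) ?_)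
    exact ENNReal.toReal_nonneg
  set D : ℝ := (M + 1) ^ 4 + 1 with hD
  have hsel : ∀ N : ℕ, ∃ (F : Finset ℕ) (e : ℕ → ℝ), F.card = N ∧ (∀ i, e i = 1 ∨ e i = -1) ∧
      (∃ C : ℝ, ∀ᵐ x ∂ν, |(∑ i ∈ F, e i • h i : Lp ℝ 4 ν) x| ≤ C) ∧
      ‖∑ i ∈ F, e i • h i‖ ^ 4 ≤ N * D := by
    intro N
    induction N with
    | zero =>
      refine ⟨∅, fun _ => 1, rfl, fun _ => Or.inl rfl, ⟨0, ?_⟩, by simp⟩
      filter_upwards [Lp.coeFn_zero ℝ 4 ν] with x hx
      rw [Finset.sum_empty, hx]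
      simp
    | succ N ih =>
      obtain ⟨F, e, hcard, he, ⟨C, hC⟩, hbd⟩ := ih
      set g : Lp ℝ 4 ν := ∑ i ∈ F, e i • h i with hg
      have hev : ∀ᶠ n in atTop, 6 * C ^ 2 * ‖incl ν (h n)‖ ^ 2 ≤ 1 := by
        have : Tendsto (fun n => 6 * C ^ 2 * ‖incl ν (h n)‖ ^ 2) atTop (𝓝 0) := by
          have := (hh0.pow 2).const_mul (6 * C ^ 2)
          simpa using this
        exact this.eventually_le_const (by norm_num)
      obtain ⟨n, hn1, hn2⟩ := (hev.and (eventually_gt_atTop (F.sup id))).exists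
      have hnF : n ∉ F := fun hmem => by
        have := Finset.le_sup (f := id) hmem
        simp only [id] at this
        omega
      obtain ⟨t, ht, hst⟩ := step g (h n) C hC
      have hsum : ∑ i ∈ insert n F, Function.update e n t i • h i = g + t • h n := by
        rw [Finset.sum_insert hnF, Function.update_self, add_comm, hg]
        congr 1
        refine Finset.sum_congr rfl (fun i hi => ?_)
        rw [Function.update_of_ne (show i ≠ n from fun h' => hnF (h' ▸ hi))]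
      refine ⟨insert n F, Function.update e n t, ?_, ?_, ⟨C + B n, ?_⟩, ?_⟩
      · rw [Finset.card_insert_of_notMem hnF, hcard]
      · intro i
        by_cases hi : i = n
        · subst hi; simpa using ht
        · simpa [Function.update_of_ne hi] using he i
      · rw [hsum]
        filter_upwards [Lp.coeFn_add g (t • h n), Lp.coeFn_smul t (h n), hC, hB n]
          with x h1 h2 h3 h4
        rw [h1, Pi.add_apply, h2, Pi.smul_apply, smul_eq_mul]
        refine (abs_add_le _ _).trans (add_le_add h3 ?_)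
        rw [abs_mul]
        rcases ht with rfl | rfl
        · simpa using h4
        · simpa using h4
      · rw [hsum]
        have h5 : ‖h n‖ ^ 4 ≤ (M + 1) ^ 4 := pow_le_pow_left₀ (norm_nonneg _) (hhM n) 4
        push_cast
        rw [hD] at *
        linarith
  -- compare
  have hmain : ∀ N : ℕ, c * Real.sqrt N - 2 ≤ Real.sqrt (Real.sqrt (N * D)) := by
    intro N
    obtain ⟨F, e, hcard, he, -, hbd⟩ := hsel N
    have h1 := hlow F e he
    rw [hcard] at h1
    have h2 : ‖∑ i ∈ F, e i • f i‖ ≤ ‖∑ i ∈ F, e i • h i‖ + 2 := by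
      have e1 : ∑ i ∈ F, e i • f i = ∑ i ∈ F, e i • h i + ∑ i ∈ F, e i • (f i - h i) := by
        rw [← Finset.sum_add_distrib]
        refine Finset.sum_congr rfl (fun i _ => ?_)
        rw [← smul_add]; congr 1; abel
      rw [e1]
      refine (norm_add_le _ _).trans (add_le_add le_rfl ?_)
      refine (norm_sum_le _ _).trans ?_
      have h3 : ∀ i ∈ F, ‖e i • (f i - h i)‖ ≤ (1 / 2 : ℝ) ^ i := by
        intro i _
        rw [norm_smul]
        rcases he i with hh | hh <;> rw [hh] <;> simpa using hfh i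
      refine (Finset.sum_le_sum h3).trans ?_
      have h4 := (summable_geometric_two).sum_le_tsum F (fun i _ => by positivity)
      rw [tsum_geometric_two] at h4
      exact h4
    have h3 : ‖∑ i ∈ F, e i • h i‖ ≤ Real.sqrt (Real.sqrt (N * D)) := by
      apply Real.le_sqrt_of_sq_le
      apply Real.le_sqrt_of_sq_le
      rw [← pow_mul]
      exact hbd
    linarith
  -- choose N = K^4 large
  have hD0 : 0 ≤ D := by
    have : 0 ≤ (M + 1) ^ 4 := by positivity
    linarith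
  set s : ℝ := Real.sqrt (Real.sqrt D) with hs
  have hs0 : 0 ≤ s := Real.sqrt_nonneg _
  obtain ⟨K, hK⟩ := exists_nat_gt ((s + 2) / c + 1)
  have hK1 : (1 : ℝ) < K := by
    have : 0 ≤ (s + 2) / c := by positivity
    linarith
  have hm := hmain (K ^ 4)
  have e1 : Real.sqrt ((K ^ 4 : ℕ) : ℝ) = (K : ℝ) ^ 2 := by
    rw [show ((K ^ 4 : ℕ) : ℝ) = ((K : ℝ) ^ 2) ^ 2 by push_cast; ring]
    exact Real.sqrt_sq (by positivity)
  have e2 : Real.sqrt (Real.sqrt (((K ^ 4 : ℕ) : ℝ) * D)) = (K : ℝ) * s := by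
    rw [Real.sqrt_mul (by positivity), e1, Real.sqrt_mul (by positivity),
      Real.sqrt_sq (by positivity)]
  rw [e1, e2] at hm
  have h5 : (s + 2) / c < K := by linarith
  rw [div_lt_iff₀ hc] at h5
  nlinarith [mul_lt_mul_of_pos_left h5 (by linarith : (0 : ℝ) < K)]

end step

end Pool.Agent.H56.JS
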