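import Mathlib
import Pool.Agent.H56.JS.Pull
import Pool.Agent.H56.JS.Rad
import Pool.Agent.H56.JS.Seq

set_option autoImplicit false
open MeasureTheory Filter Topology ProbabilityTheory
open scoped ENNReal

namespace Pool.Agent.H56.JS

/-- index set of the fibres: one fibre for every real number and one special fibre -/
inductive Ix : Type
  | base : Ix
  | fib (k : ℝ) : Ix

instance : MeasurableSpace Ix := ⊤

noncomputable instance : DecidableEq Ix := Classical.decEq _

/-- index set of the generating vectors -/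
abbrev Ax : Type := ℝ × ℕ

/-- the underlying set -/
abbrev Om : Type := Ix × (Ax → Bool)

/-- embedding of the fibre `i` -/
def jj (i : Ix) (ω : Ax → Bool) : Om := (i, ω)

lemma measurable_jj (i : Ix) : Measurable (jj i) := measurable_const.prodMk measurable_id

/-- the measure: product coin measure on every fibre -/
noncomputable def mm : Measure Om := Measure.sum (fun i : Ix => (PP Ax).map (jj i))

lemma map_jj_le (i : Ix) : (PP Ax).map (jj i) ≤ mm := Measure.le_sum _ i

/-- coefficient of the generating vector `a` on the fibre `i` -/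
noncomputable def cf (a : Ax) (i : Ix) : ℝ :=
  if i = Ix.fib a.1 then 1 else if i = Ix.base then (1 / 2) ^ a.2 else 0

lemma cf_none (a : Ax) : cf a Ix.base = (1 / 2) ^ a.2 := by
  unfold cf
  rw [if_neg (by intro h; cases h), if_pos rfl]

lemma cf_some_self (a : Ax) : cf a (Ix.fib a.1) = 1 := by
  unfold cf
  rw [if_pos rfl]

lemma cf_some_ne (a : Ax) (k : ℝ) (h : k ≠ a.1) : cf a (Ix.fib k) = 0 := by
  unfold cf
  rw [if_neg, if_neg]
  · intro h'; cases h'
  · intro h'
    exact h (Ix.fib.inj h')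

/-- combination of the generating functions -/
noncomputable def ff (F : Finset Ax) (s : Ax → ℝ) (x : Om) : ℝ :=
  rs F (fun a => s a * cf a x.1) x.2

lemma ff_eq (F : Finset Ax) (s : Ax → ℝ) (x : Om) :
    ff F s x = ∑ a ∈ F, s a * (cf a x.1 * rad a x.2) := by
  unfold ff rs
  refine Finset.sum_congr rfl (fun a _ => by ring)

lemma measurable_ff (F : Finset Ax) (s : Ax → ℝ) : Measurable (ff F s) := by
  have : ff F s = fun x => ∑ a ∈ F, s a * (cf a x.1 * rad a x.2) := by
    funext x; exact ff_eq F s x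
  rw [this]
  refine Finset.measurable_sum _ (fun a _ => Measurable.const_mul ?_ _)
  apply Measurable.mul
  · exact (measurable_from_top (f := cf a)).comp measurable_fst
  · exact (measurable_rad a).comp measurable_snd

/-- the generating functions -/
noncomputable def fv (a : Ax) (x : Om) : ℝ := cf a x.1 * rad a x.2

lemma measurable_fv (a : Ax) : Measurable (fv a) :=
  ((measurable_from_top (f := cf a)).comp measurable_fst).mul
    ((measurable_rad a).comp measurable_snd)

lemma memLp_fv (a : Ax) : MemLp (fv a) 4 mm := by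
  refine ⟨(measurable_fv a).aestronglyMeasurable, ?_⟩
  rw [eLpNorm_lt_top_iff_lintegral_rpow_enorm_lt_top (by norm_num) (by norm_num)]
  unfold mm
  rw [lintegral_sum_measure]
  have h1 : ∀ i : Ix, ∫⁻ x, ‖fv a x‖ₑ ^ (4 : ℝ≥0∞).toReal ∂((PP Ax).map (jj i)) =
      ‖cf a i‖ₑ ^ (4 : ℝ≥0∞).toReal := by
    intro i
    rw [lintegral_map ((measurable_fv a).enorm.pow_const _) (measurable_jj i)]
    have : ∀ ω : Ax → Bool, ‖fv a (jj i ω)‖ₑ ^ (4 : ℝ≥0∞).toReal =
        ‖cf a i‖ₑ ^ (4 : ℝ≥0∞).toReal := by
      intro ω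
      have h2 : ‖rad a ω‖ₑ = 1 := by
        rw [← ofReal_norm, Real.norm_eq_abs, abs_rad]
        simp
      unfold fv jj
      rw [enorm_mul, h2, mul_one]
    simp_rw [this]
    simp
  simp_rw [h1]
  rw [tsum_eq_sum (s := {Ix.base, Ix.fib a.1})]
  · apply ENNReal.sum_lt_top.2
    intro i _
    apply ENNReal.rpow_lt_top_of_nonneg (by norm_num) (by simp)
  · intro i hi
    have : cf a i = 0 := by
      rcases i with _ | k
      · simp at hi
      · apply cf_some_ne
        rintro rfl
        simp at hi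
    rw [this]
    simp

/-- the generating vectors -/
noncomputable def vv (a : Ax) : Lp ℝ 4 mm := (memLp_fv a).toLp

lemma vv_ae (a : Ax) : vv a =ᵐ[mm] fv a := (memLp_fv a).coeFn_toLp

lemma sum_vv_ae (F : Finset Ax) (s : Ax → ℝ) :
    (∑ a ∈ F, s a • vv a : Lp ℝ 4 mm) =ᵐ[mm] ff F s := by
  have h1 := Lp.coeFn_finsetSum F (fun a => s a • vv a)
  have h2 : ∀ᵐ x ∂mm, ∀ a ∈ F, (s a • vv a : Lp ℝ 4 mm) x = s a * fv a x := by
    refine (ae_ball_iff F.countable_toSet).2 ?_
    intro a _
    filter_upwards [Lp.coeFn_smul (s a) (vv a), vv_ae a] with x hx hy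
    rw [hx, Pi.smul_apply, hy, smul_eq_mul]
  filter_upwards [h1, h2] with x hx hy
  rw [hx, ff_eq, Finset.sum_apply]
  exact Finset.sum_congr rfl (fun a ha => hy a ha)

/-- upper estimate for the norm of combinations of generating vectors -/
lemma norm_sum_vv_le (F : Finset Ax) (s : Ax → ℝ) (T : Finset ℝ) (hT : ∀ a ∈ F, a.1 ∈ T) :
    ‖∑ a ∈ F, s a • vv a‖ ^ 4 ≤ 3 * (∑ a ∈ F, (s a * (1 / 2) ^ a.2) ^ 2) ^ 2 +
      ∑ k ∈ T, 3 * (∑ a ∈ F, (s a * cf a (Ix.fib k)) ^ 2) ^ 2 := by
  classical
  rw [norm4_eq]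
  have hint := integrable_pow4 (∑ a ∈ F, s a • vv a)
  have hcong : (fun x => ((∑ a ∈ F, s a • vv a : Lp ℝ 4 mm) x) ^ 4) =ᵐ[mm]
      fun x => (ff F s x) ^ 4 := by
    filter_upwards [sum_vv_ae F s] with x hx
    rw [hx]
  rw [integral_congr_ae hcong]
  have hint2 : Integrable (fun x => (ff F s x) ^ 4) mm := hint.congr hcong
  have hsum : HasSum (fun i : Ix => ∫ x, (ff F s x) ^ 4 ∂((PP Ax).map (jj i)))
      (∫ x, (ff F s x) ^ 4 ∂mm) := hasSum_integral_measure hint2
  have hI : ∀ i : Ix, ∫ x, (ff F s x) ^ 4 ∂((PP Ax).map (jj i)) ≤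
      3 * (∑ a ∈ F, (s a * cf a i) ^ 2) ^ 2 := by
    intro i
    rw [integral_map (measurable_jj i).aemeasurable
      ((measurable_ff F s).pow_const 4).aestronglyMeasurable]
    exact integral_rs_four F (fun a => s a * cf a i)
  have hz : ∀ i : Ix, i ∉ (insert Ix.base (T.image Ix.fib)) → ∫ x, (ff F s x) ^ 4 ∂((PP Ax).map (jj i)) = 0 := by
    intro i hi
    rw [integral_map (measurable_jj i).aemeasurable
      ((measurable_ff F s).pow_const 4).aestronglyMeasurable]
    have : ∀ ω : Ax → Bool, ff F s (jj i ω) ^ 4 = 0 := by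
      intro ω
      rw [ff_eq, Finset.sum_eq_zero]
      · simp
      · intro a ha
        have h0 : cf a i = 0 := by
          rcases i with _ | k
          · simp at hi
          · apply cf_some_ne
            rintro rfl
            apply hi
            apply Finset.mem_insert_of_mem
            exact Finset.mem_image_of_mem _ (hT a ha)
        show s a * (cf a i * _) = 0
        rw [h0]; ring
    simp [this]
  have e := hsum.tsum_eq
  rw [tsum_eq_sum hz] at e
  rw [← e]
  rw [Finset.sum_insert (by simp), Finset.sum_image (fun a _ b _ h => Ix.fib.inj h)]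
  refine add_le_add ?_ (Finset.sum_le_sum fun k _ => hI _)
  refine (hI Ix.base).trans (le_of_eq ?_)
  simp_rw [cf_none]

end Pool.Agent.H56.JS
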