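import Mathlib
import Pool.Agent.H56.JS.Space

set_option autoImplicit false
open MeasureTheory Filter Topology ProbabilityTheory
open scoped ENNReal

namespace Pool.Agent.H56.JS

/-- restriction to the fibre `i`, with values in `L^2` of the sign space -/
noncomputable def GG (i : Ix) : Lp ℝ 4 mm →L[ℝ] Lp ℝ 2 (PP Ax) :=
  pull (measurable_jj i) (map_jj_le i)

lemma GG_ae (i : Ix) (f : Lp ℝ 4 mm) : GG i f =ᵐ[PP Ax] f ∘ jj i := pull_apply_ae _ _ f

lemma norm_GG_le (i : Ix) (f : Lp ℝ 4 mm) : ‖GG i f‖ ≤ ‖f‖ := by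
  have := norm_pull_le (measurable_jj i) (map_jj_le i) f
  rwa [cst_prob, one_mul] at this

lemma memLp_rad (a : Ax) : MemLp (rad a) 2 (PP Ax) := by
  apply MemLp.of_bound (measurable_rad a).aestronglyMeasurable 1
  filter_upwards with ω
  rw [Real.norm_eq_abs, abs_rad]

/-- Rademacher functions as elements of `L^2` -/
noncomputable def RR (a : Ax) : Lp ℝ 2 (PP Ax) := (memLp_rad a).toLp

lemma RR_ae (a : Ax) : RR a =ᵐ[PP Ax] rad a := (memLp_rad a).coeFn_toLp

lemma inner_RR (a b : Ax) : inner ℝ (RR a) (RR b) = if a = b then (1 : ℝ) else 0 := by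
  classical
  rw [L2.inner_def]
  have h1 : ∫ ω, inner ℝ (RR a ω) (RR b ω) ∂(PP Ax) = ∫ ω, rad a ω * rad b ω ∂(PP Ax) := by
    apply integral_congr_ae
    filter_upwards [RR_ae a, RR_ae b] with ω h1 h2
    rw [h1, h2]
    simp [mul_comm]
  rw [h1]
  by_cases hab : a = b
  · subst hab
    rw [if_pos rfl]
    have : ∀ ω, rad a ω * rad a ω = 1 := fun ω => by rw [← sq]; exact rad_sq a ω
    simp [this]
  · rw [if_neg hab]
    have h2 := integral_rs_pow_mul_rad {a} (fun _ => 1) 1 b (by simpa using Ne.symm hab)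
    simpa [rs] using h2

lemma GG_vv (i : Ix) (a : Ax) : GG i (vv a) = cf a i • RR a := by
  apply Lp.ext
  have h1 : (vv a) ∘ jj i =ᵐ[PP Ax] fv a ∘ jj i := by
    have : (vv a) =ᵐ[(PP Ax).map (jj i)] fv a :=
      (vv_ae a).filter_mono (Measure.absolutelyContinuous_of_le (map_jj_le i)).ae_le
    exact ae_eq_comp (measurable_jj i).aemeasurable this
  filter_upwards [GG_ae i (vv a), h1, Lp.coeFn_smul (cf a i) (RR a), RR_ae a] with ω h2 h3 h4 h5
  rw [h2, h3, h4, Pi.smul_apply, h5]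
  rfl

/-- the subspace -/
noncomputable def XX : Submodule ℝ (Lp ℝ 4 mm) :=
  (Submodule.span ℝ (Set.range vv)).topologicalClosure

lemma isClosed_XX : IsClosed (XX : Set (Lp ℝ 4 mm)) := Submodule.isClosed_topologicalClosure _

lemma vv_mem (a : Ax) : vv a ∈ XX :=
  Submodule.le_topologicalClosure _ (Submodule.subset_span ⟨a, rfl⟩)

lemma XX_le {N : Submodule ℝ (Lp ℝ 4 mm)} (hN : IsClosed (N : Set (Lp ℝ 4 mm)))
    (h : ∀ a, vv a ∈ N) : XX ≤ N := by
  apply Submodule.topologicalClosure_minimal _ _ hN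
  rw [Submodule.span_le]
  rintro _ ⟨a, rfl⟩
  exact h a

/-- comparison of the coordinates on the base fibre and on the fibre `k` -/
lemma inner_base (x : Lp ℝ 4 mm) (hx : x ∈ XX) (a : Ax) :
    inner ℝ (RR a) (GG Ix.base x) = (1 / 2) ^ a.2 * inner ℝ (RR a) (GG (Ix.fib a.1) x) := by
  let φ : Lp ℝ 4 mm →L[ℝ] ℝ := (innerSL ℝ (RR a)).comp (GG Ix.base) -
    ((1 / 2 : ℝ) ^ a.2) • (innerSL ℝ (RR a)).comp (GG (Ix.fib a.1))
  have h : XX ≤ LinearMap.ker (φ : Lp ℝ 4 mm →ₗ[ℝ] ℝ) := by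
    apply XX_le
    · exact φ.isClosed_ker
    · intro b
      rw [LinearMap.mem_ker]
      show inner ℝ (RR a) (GG Ix.base (vv b)) -
        (1 / 2 : ℝ) ^ a.2 * inner ℝ (RR a) (GG (Ix.fib a.1) (vv b)) = 0
      rw [GG_vv, GG_vv, inner_smul_right, inner_smul_right, inner_RR, cf_none]
      by_cases hab : a = b
      · subst hab
        rw [cf_some_self]; simp
      · simp [hab]
  have h2 := h hx
  rw [LinearMap.mem_ker] at h2
  have h3 : inner ℝ (RR a) (GG Ix.base x) -
        (1 / 2 : ℝ) ^ a.2 * inner ℝ (RR a) (GG (Ix.fib a.1) x) = 0 := h2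
  linarith

lemma GG_mem (x : Lp ℝ 4 mm) (hx : x ∈ XX) (k : ℝ) :
    GG (Ix.fib k) x ∈
      (Submodule.span ℝ (Set.range fun n : ℕ => RR (k, n))).topologicalClosure := by
  set S := (Submodule.span ℝ (Set.range fun n : ℕ => RR (k, n))).topologicalClosure with hS
  have h : XX ≤ S.comap (GG (Ix.fib k) : Lp ℝ 4 mm →ₗ[ℝ] Lp ℝ 2 (PP Ax)) := by
    apply XX_le
    · exact (Submodule.isClosed_topologicalClosure _).preimage (GG (Ix.fib k)).continuous
    · intro b
      rw [Submodule.mem_comap]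
      show GG (Ix.fib k) (vv b) ∈ S
      rw [GG_vv]
      by_cases hk : k = b.1
      · subst hk
        apply Submodule.smul_mem
        exact Submodule.le_topologicalClosure _ (Submodule.subset_span ⟨b.2, rfl⟩)
      · rw [cf_some_ne b k hk, zero_smul]
        exact Submodule.zero_mem _
  exact h hx

lemma GG_fib_eq_zero (x : Lp ℝ 4 mm) (hx : x ∈ XX) (h0 : GG Ix.base x = 0) (k : ℝ) :
    GG (Ix.fib k) x = 0 := by
  set S := Submodule.span ℝ (Set.range fun n : ℕ => RR (k, n)) with hS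
  have h1 : GG (Ix.fib k) x ∈ S.topologicalClosure := GG_mem x hx k
  have h2 : GG (Ix.fib k) x ∈ Sᗮ := by
    rw [Submodule.mem_orthogonal]
    intro u hu
    induction hu using Submodule.span_induction with
    | mem u hu =>
      obtain ⟨n, rfl⟩ := hu
      have h3 := inner_base x hx (k, n)
      rw [h0, inner_zero_right] at h3
      have h4 : ((1 : ℝ) / 2) ^ n ≠ 0 := by positivity
      simpa [h4] using h3.symm
    | zero => simp
    | add u v _ _ hu hv => rw [inner_add_left, hu, hv, add_zero]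
    | smul c u _ hu => rw [inner_smul_left, hu, mul_zero]
  rw [← Submodule.orthogonal_closure] at h2
  have h3 : GG (Ix.fib k) x ∈ S.topologicalClosure ⊓ S.topologicalClosureᗮ := ⟨h1, h2⟩
  rw [Submodule.inf_orthogonal_eq_bot] at h3
  exact (Submodule.mem_bot ℝ).1 h3

/-- the restriction to the base fibre is injective on the subspace -/
lemma base_injective (x : Lp ℝ 4 mm) (hx : x ∈ XX) (h0 : GG Ix.base x = 0) : x = 0 := by
  have hall : ∀ i, GG i x = 0 := by
    intro i
    cases i with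
    | base => exact h0
    | fib k => exact GG_fib_eq_zero x hx h0 k
  have hae : ∀ i, ∀ᵐ ω ∂(PP Ax), x (jj i ω) = 0 := by
    intro i
    filter_upwards [GG_ae i x, Lp.coeFn_zero ℝ 2 (PP Ax)] with ω h1 h2
    rw [hall i, h2] at h1
    exact h1.symm
  rw [Lp.eq_zero_iff_ae_eq_zero]
  have hms : MeasurableSet {y : Om | x y = 0} :=
    (Lp.stronglyMeasurable x).measurable (measurableSet_singleton 0)
  have key : ∀ᵐ y ∂(Measure.sum (fun i : Ix => (PP Ax).map (jj i))), x y = 0 := by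
    refine (Measure.ae_sum_iff' hms).2 (fun i => ?_)
    rw [ae_map_iff (measurable_jj i).aemeasurable hms]
    exact hae i
  exact key

/-- lower estimate on a single fibre -/
lemma sqrt_card_le (k : ℝ) (F : Finset ℕ) (e : ℕ → ℝ) (he : ∀ i, e i = 1 ∨ e i = -1) :
    Real.sqrt F.card ≤ ‖∑ n ∈ F, e n • vv (k, n)‖ := by
  classical
  refine le_trans ?_ (norm_GG_le (Ix.fib k) _)
  apply Real.sqrt_le_iff.2
  refine ⟨norm_nonneg _, ?_⟩
  rw [map_sum]
  have h1 : ∀ n ∈ F, GG (Ix.fib k) (e n • vv (k, n)) = e n • RR (k, n) := by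
    intro n _
    rw [map_smul, GG_vv, cf_some_self (k, n), one_smul]
  rw [Finset.sum_congr rfl h1, ← real_inner_self_eq_norm_sq, sum_inner]
  have h2 : ∀ n ∈ F, inner ℝ (e n • RR (k, n)) (∑ n ∈ F, e n • RR (k, n)) = (1 : ℝ) := by
    intro n hn
    rw [inner_sum, Finset.sum_eq_single n]
    · rw [inner_smul_left, inner_smul_right, inner_RR, if_pos rfl]
      rcases he n with h | h <;> rw [h] <;> simp
    · intro j _ hj
      rw [inner_smul_left, inner_smul_right, inner_RR, if_neg]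
      · simp
      · intro h
        exact hj (Prod.ext_iff.1 h).2.symm
    · intro h
      exact absurd hn h
  rw [Finset.sum_congr rfl h2]
  simp

/-- upper estimate across the fibres -/
lemma norm_across_le (n : ℕ) (F : Finset ℝ) (e : ℝ → ℝ) (he : ∀ i, e i = 1 ∨ e i = -1) :
    ‖∑ k ∈ F, e k • vv (k, n)‖ ^ 4 ≤ 3 * ((1 / 4) ^ n * F.card) ^ 2 + 3 * F.card := by
  classical
  have h := norm_sum_vv_le (F.image fun k => ((k, n) : Ax)) (fun a => e a.1) F
    (by intro a ha; obtain ⟨k, hk, rfl⟩ := Finset.mem_image.1 ha; exact hk)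
  have hinj : Set.InjOn (fun k : ℝ => ((k, n) : Ax)) F := by
    intro a _ b _ hab
    exact (Prod.ext_iff.1 hab).1
  rw [Finset.sum_image hinj, Finset.sum_image hinj] at h
  refine h.trans (le_of_eq ?_)
  have hsq : ∀ k, e k ^ 2 = 1 := fun k => by rcases he k with h | h <;> rw [h] <;> norm_num
  congr 1
  · congr 2
    have : ∀ k ∈ F, (e ((k, n) : Ax).1 * (1 / 2) ^ ((k, n) : Ax).2) ^ 2 = (1 / 4 : ℝ) ^ n := by
      intro k _
      show (e k * (1 / 2) ^ n) ^ 2 = _
      rw [mul_pow, hsq, one_mul, ← pow_mul, mul_comm n 2, pow_mul]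
      norm_num
    rw [Finset.sum_congr rfl this, Finset.sum_const, nsmul_eq_mul, mul_comm]
  · have : ∀ k ∈ F, 3 * (∑ a ∈ F.image fun k => ((k, n) : Ax),
        (e a.1 * cf a (Ix.fib k)) ^ 2) ^ 2 = (3 : ℝ) := by
      intro k hk
      rw [Finset.sum_image hinj, Finset.sum_eq_single k]
      · show 3 * ((e k * cf (k, n) (Ix.fib k)) ^ 2) ^ 2 = (3 : ℝ)
        rw [cf_some_self (k, n), mul_one, hsq]
        norm_num
      · intro j _ hj
        show (e j * cf (j, n) (Ix.fib k)) ^ 2 = 0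
        rw [cf_some_ne (j, n) k (fun h => hj h.symm)]
        simp
      · intro h; exact absurd hk h
    rw [Finset.sum_congr rfl this, Finset.sum_const, nsmul_eq_mul, mul_comm]

end Pool.Agent.H56.JS
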