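import Mathlib
import Pool.Agent.H56.JS.Sub

set_option autoImplicit false
open MeasureTheory Filter Topology ProbabilityTheory
open scoped ENNReal

namespace Pool.Agent.H56.JS

/-- an uncountable family of positive numbers is bounded below on an infinite set -/
lemma exists_infinite {I : Type*} [Uncountable I] (z : I → ℝ) (hz : ∀ i, 0 < z i) :
    ∃ δ : ℝ, 0 < δ ∧ {i | δ ≤ z i}.Infinite := by
  by_contra hcon
  push Not at hcon
  have hfin : ∀ n : ℕ, {i | (1 : ℝ) / (n + 1) ≤ z i}.Finite := fun n =>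
    Set.not_infinite.1 (by
      have := hcon (1 / (n + 1)) (by positivity)
      simpa using this)
  have hcov : (⋃ n : ℕ, {i | (1 : ℝ) / (n + 1) ≤ z i}) = Set.univ := by
    rw [Set.eq_univ_iff_forall]
    intro i
    obtain ⟨n, hn⟩ := exists_nat_one_div_lt (hz i)
    exact Set.mem_iUnion.2 ⟨n, hn.le⟩
  have : (Set.univ : Set I).Countable := by
    rw [← hcov]
    exact Set.countable_iUnion (fun n => (hfin n).countable)
  exact not_countable (Set.countable_univ_iff.1 this)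

/-- `XX` contains no copy of `ℓ^4(ω₁)` -/
lemma no_copy (I : Type) (hI : Cardinal.mk I = Cardinal.aleph 1)
    (T : lp (fun _ : I => ℝ) 4 →L[ℝ] XX) (c : ℝ) (hc : 0 < c) (hT : ∀ x, c * ‖x‖ ≤ ‖T x‖) :
    False := by
  classical
  have hunc : Uncountable I := by
    rw [← not_countable_iff, ← Cardinal.mk_le_aleph0_iff, hI, not_le]
    exact Cardinal.aleph0_lt_aleph_one
  set A : lp (fun _ : I => ℝ) 4 →L[ℝ] Lp ℝ 2 (PP Ax) := (GG Ix.base).comp (XX.subtypeL.comp T)
    with hA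
  set e : I → lp (fun _ : I => ℝ) 4 := fun i => lp.single 4 i (1 : ℝ) with he
  have hen : ∀ i, ‖e i‖ = 1 := fun i => by
    rw [he]
    simp only
    rw [lp.norm_single (by norm_num)]
    norm_num
  have hz : ∀ i, 0 < ‖A (e i)‖ := by
    intro i
    rw [norm_pos_iff]
    intro h0
    have h1 : ((T (e i) : XX) : Lp ℝ 4 mm) = 0 := base_injective _ (T (e i)).2 h0
    have h2 : T (e i) = 0 := Subtype.ext h1
    have h3 := hT (e i)
    rw [h2, hen, norm_zero] at h3
    linarith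
  obtain ⟨δ, hδ, hinf⟩ := exists_infinite (fun i => ‖A (e i)‖) hz
  have hbound : ∀ N : ℕ, 0 < N → (N : ℝ) * δ ^ 4 ≤ ‖A‖ ^ 4 := by
    intro N hN
    obtain ⟨F, hF, hcard⟩ := hinf.exists_subset_card_eq N
    obtain ⟨s, hs, hsum⟩ := exists_signs F (fun i => A (e i))
    have h1 : (N : ℝ) * δ ^ 2 ≤ ∑ i ∈ F, ‖A (e i)‖ ^ 2 := by
      rw [← hcard, ← nsmul_eq_mul]
      apply Finset.card_nsmul_le_sum
      intro i hi
      exact pow_le_pow_left₀ hδ.le (hF hi) 2
    have h2 : ∑ i ∈ F, s i • A (e i) = A (∑ i ∈ F, lp.single 4 i (s i)) := by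
      rw [map_sum]
      refine Finset.sum_congr rfl (fun i _ => ?_)
      rw [← map_smul]
      congr 1
      rw [he]
      simp only
      rw [← lp.single_smul]
      simp
    have h3 : ‖∑ i ∈ F, (lp.single 4 i (s i) : lp (fun _ : I => ℝ) 4)‖ ^ 4 = N := by
      have := lp.norm_sum_single (p := 4) (E := fun _ : I => ℝ) (by norm_num) s F
      have e4 : ((4 : ℝ≥0∞).toReal) = ((4 : ℕ) : ℝ) := by norm_num
      rw [e4] at this
      simp_rw [Real.rpow_natCast] at this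
      rw [this, ← hcard]
      have : ∀ i ∈ F, ‖s i‖ ^ 4 = 1 := by
        intro i _
        rcases hs i with h | h <;> rw [h] <;> simp
      rw [Finset.sum_congr rfl this]
      simp
    have h4 : ‖∑ i ∈ F, s i • A (e i)‖ ≤ ‖A‖ *
        ‖∑ i ∈ F, (lp.single 4 i (s i) : lp (fun _ : I => ℝ) 4)‖ := by
      rw [h2]; exact A.le_opNorm _
    have h5 : ((N : ℝ) * δ ^ 2) ^ 2 ≤ ‖A‖ ^ 4 * N := by
      calc ((N : ℝ) * δ ^ 2) ^ 2 ≤ (‖∑ i ∈ F, s i • A (e i)‖ ^ 2) ^ 2 :=
            pow_le_pow_left₀ (by positivity) (h1.trans hsum) 2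
        _ = ‖∑ i ∈ F, s i • A (e i)‖ ^ 4 := by ring
        _ ≤ (‖A‖ * ‖∑ i ∈ F, (lp.single 4 i (s i) : lp (fun _ : I => ℝ) 4)‖) ^ 4 :=
            pow_le_pow_left₀ (norm_nonneg _) h4 4
        _ = ‖A‖ ^ 4 * N := by rw [mul_pow, h3]
    have hN' : (0 : ℝ) < N := by exact_mod_cast hN
    have h6 : (N : ℝ) * (N * δ ^ 4) ≤ N * ‖A‖ ^ 4 := by nlinarith [h5]
    exact le_of_mul_le_mul_left h6 hN'
  obtain ⟨N, hN⟩ := exists_nat_gt (‖A‖ ^ 4 / δ ^ 4)
  have hd : 0 < δ ^ 4 := by positivity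
  rw [div_lt_iff₀ hd] at hN
  have hN0 : 0 < N := by
    rcases Nat.eq_zero_or_pos N with h | h
    · subst h
      have : (0 : ℝ) ≤ ‖A‖ ^ 4 := by positivity
      simp at hN
      linarith
    · exact h
  exact absurd (hbound N hN0) (not_le.2 hN)

/-- the generating vectors as elements of the subspace -/
noncomputable def xv (a : Ax) : XX := ⟨vv a, vv_mem a⟩

lemma norm_sum_xv {ι : Type*} (F : Finset ι) (s : ι → ℝ) (g : ι → Ax) :
    ‖∑ i ∈ F, s i • xv (g i)‖ = ‖∑ i ∈ F, s i • vv (g i)‖ := by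
  show ‖((∑ i ∈ F, s i • xv (g i) : XX) : Lp ℝ 4 mm)‖ = _
  congr 1
  simp [xv]

/-- `XX` does not embed into `L^4` of a finite measure -/
lemma no_embedding {Ω' : Type} [MeasurableSpace Ω'] (ν : Measure Ω') [IsFiniteMeasure ν]
    (T : XX →L[ℝ] Lp ℝ 4 ν) (c : ℝ) (hc : 0 < c) (hT : ∀ x, c * ‖x‖ ≤ ‖T x‖) : False := by
  classical
  set B : XX →L[ℝ] Lp ℝ 2 ν := (incl ν).comp T with hB
  set C : ℝ := ‖B‖ with hC
  have hC0 : 0 ≤ C := by rw [hC]; exact norm_nonneg B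
  set A : ℝ := 3 * C ^ 4 + 1 with hA
  have hA1 : 1 ≤ A := by
    have : 0 ≤ C ^ 4 := by positivity
    linarith
  -- for every n, all but finitely many k are good
  have hfin : ∀ n : ℕ, {k : ℝ | A * (1 / 2) ^ n ≤ ‖B (xv (k, n))‖}.Finite := by
    intro n
    by_contra hinf
    rw [← Set.Infinite] at hinf
    have hb : ∀ N : ℕ, 0 < N → (N : ℝ) * (1 / 16) ^ n ≤ 3 * C ^ 4 := by
      intro N hN
      obtain ⟨F, hF, hcard⟩ := hinf.exists_subset_card_eq N
      obtain ⟨s, hs, hsum⟩ := exists_signs F (fun k => B (xv (k, n)))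
      have h1 : (N : ℝ) * (A * (1 / 2) ^ n) ^ 2 ≤ ∑ k ∈ F, ‖B (xv (k, n))‖ ^ 2 := by
        rw [← hcard, ← nsmul_eq_mul]
        apply Finset.card_nsmul_le_sum
        intro k hk
        exact pow_le_pow_left₀ (by positivity) (hF hk) 2
      have h2 : ∑ k ∈ F, s k • B (xv (k, n)) = B (∑ k ∈ F, s k • xv (k, n)) := by
        rw [map_sum]
        exact Finset.sum_congr rfl (fun k _ => (map_smul _ _ _).symm)
      have h3 : ‖∑ k ∈ F, s k • xv (k, n)‖ ^ 4 ≤ 3 * ((1 / 4) ^ n * N) ^ 2 + 3 * N := by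
        have e1 : ‖∑ k ∈ F, s k • xv (k, n)‖ = ‖∑ k ∈ F, s k • vv (k, n)‖ :=
          norm_sum_xv F s (fun k => (k, n))
        rw [e1, ← hcard]
        exact norm_across_le n F s hs
      have h4 : ‖∑ k ∈ F, s k • B (xv (k, n))‖ ≤ C * ‖∑ k ∈ F, s k • xv (k, n)‖ := by
        rw [h2]; exact B.le_opNorm _
      have h5 : ((N : ℝ) * (A * (1 / 2) ^ n) ^ 2) ^ 2 ≤
          C ^ 4 * (3 * ((1 / 4) ^ n * N) ^ 2 + 3 * N) := by
        calc ((N : ℝ) * (A * (1 / 2) ^ n) ^ 2) ^ 2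
            ≤ (‖∑ k ∈ F, s k • B (xv (k, n))‖ ^ 2) ^ 2 :=
              pow_le_pow_left₀ (by positivity) (h1.trans hsum) 2
          _ = ‖∑ k ∈ F, s k • B (xv (k, n))‖ ^ 4 := by ring
          _ ≤ (C * ‖∑ k ∈ F, s k • xv (k, n)‖) ^ 4 :=
              pow_le_pow_left₀ (norm_nonneg _) h4 4
          _ = C ^ 4 * ‖∑ k ∈ F, s k • xv (k, n)‖ ^ 4 := by ring
          _ ≤ _ := mul_le_mul_of_nonneg_left h3 (by positivity)
      have e16 : (((1 : ℝ) / 2) ^ n) ^ 4 = (1 / 16) ^ n := by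
        rw [← pow_mul, mul_comm, pow_mul]; norm_num
      have e16' : (((1 : ℝ) / 4) ^ n) ^ 2 = (1 / 16) ^ n := by
        rw [← pow_mul, mul_comm, pow_mul]; norm_num
      set q : ℝ := (1 / 16) ^ n with hq
      have hq0 : 0 < q := by positivity
      have hN' : (0 : ℝ) < N := by exact_mod_cast hN
      have h6 : (N : ℝ) ^ 2 * A ^ 4 * q ≤ C ^ 4 * (3 * (q * N ^ 2) + 3 * N) := by
        have e1 : ((N : ℝ) * (A * (1 / 2) ^ n) ^ 2) ^ 2 =
            (N : ℝ) ^ 2 * A ^ 4 * (((1 : ℝ) / 2) ^ n) ^ 4 := by ring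
        have e2 : (((1 : ℝ) / 4) ^ n * N) ^ 2 = (((1 : ℝ) / 4) ^ n) ^ 2 * N ^ 2 := by ring
        rw [e1, e16, e2, e16'] at h5
        exact h5
      have hA4 : 3 * C ^ 4 + 1 ≤ A ^ 4 := by
        have : A ≤ A ^ 4 := by
          calc A = A * 1 := (mul_one _).symm
            _ ≤ A * A ^ 3 := mul_le_mul_of_nonneg_left (one_le_pow₀ hA1) (by linarith)
            _ = A ^ 4 := by ring
        linarith
      have h7 : (N : ℝ) ^ 2 * (3 * C ^ 4 + 1) * q ≤ (N : ℝ) ^ 2 * A ^ 4 * q := by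
        apply mul_le_mul_of_nonneg_right _ hq0.le
        exact mul_le_mul_of_nonneg_left hA4 (by positivity)
      have h8 : (N : ℝ) * (N * q) ≤ N * (3 * C ^ 4) := by nlinarith [h6, h7]
      exact le_of_mul_le_mul_left h8 hN'
    obtain ⟨N, hN⟩ := exists_nat_gt (3 * C ^ 4 / (1 / 16) ^ n)
    have hd : (0 : ℝ) < (1 / 16) ^ n := by positivity
    rw [div_lt_iff₀ hd] at hN
    have hN0 : 0 < N := by
      rcases Nat.eq_zero_or_pos N with h | h
      · subst h
        have : (0 : ℝ) ≤ 3 * C ^ 4 := by positivity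
        simp at hN
        linarith
      · exact h
    exact absurd (hb N hN0) (not_le.2 hN)
  -- a good k
  have hk : ∃ k : ℝ, ∀ n : ℕ, ‖B (xv (k, n))‖ < A * (1 / 2) ^ n := by
    by_contra hcon
    push Not at hcon
    have : (Set.univ : Set ℝ).Countable := by
      refine Set.Countable.mono ?_ (Set.countable_iUnion (fun n => (hfin n).countable))
      intro k _
      obtain ⟨n, hn⟩ := hcon k
      exact Set.mem_iUnion.2 ⟨n, hn⟩
    exact not_countable (Set.countable_univ_iff.1 this)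
  obtain ⟨k, hk⟩ := hk
  have hv : ∀ n, ‖xv (k, n)‖ ≤ 2 := by
    intro n
    have h1 := norm_across_le n {k} (fun _ => 1) (fun _ => Or.inl rfl)
    simp only [Finset.sum_singleton, one_smul, Finset.card_singleton, Nat.cast_one, mul_one] at h1
    have h2 : (((1 : ℝ) / 4) ^ n) ^ 2 ≤ 1 := by
      apply pow_le_one₀ (by positivity)
      exact pow_le_one₀ (by norm_num) (by norm_num)
    have h3 : ‖xv (k, n)‖ = ‖vv (k, n)‖ := rfl
    rw [h3]
    by_contra h4
    push Not at h4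
    have h5 : (2 : ℝ) ^ 4 < ‖vv (k, n)‖ ^ 4 := pow_lt_pow_left₀ h4 (by norm_num) (by norm_num)
    linarith
  refine no_lower_two (ν := ν) (fun n => T (xv (k, n))) (‖T‖ * 2) c (fun n => ?_) hc ?_ ?_
  · exact (T.le_opNorm _).trans (mul_le_mul_of_nonneg_left (hv n) (norm_nonneg T))
  · have hz : Tendsto (fun n : ℕ => A * (1 / 2 : ℝ) ^ n) atTop (𝓝 0) := by
      have := (tendsto_pow_atTop_nhds_zero_of_lt_one (r := (1 / 2 : ℝ)) (by norm_num)
        (by norm_num)).const_mul A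
      simpa using this
    exact squeeze_zero (fun n => norm_nonneg _) (fun n => (hk n).le) hz
  · intro F e he
    have h1 : ∑ i ∈ F, e i • T (xv (k, i)) = T (∑ i ∈ F, e i • xv (k, i)) := by
      rw [map_sum]
      exact Finset.sum_congr rfl (fun i _ => (map_smul _ _ _).symm)
    rw [h1]
    refine le_trans (mul_le_mul_of_nonneg_left ?_ hc.le) (hT _)
    have e1 : ‖∑ i ∈ F, e i • xv (k, i)‖ = ‖∑ i ∈ F, e i • vv (k, i)‖ :=
      norm_sum_xv F e (fun i => (k, i))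
    rw [e1]
    exact sqrt_card_le k F e he

end Pool.Agent.H56.JS
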